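import Pool.Agent.K1H76.OM.Stm

/-!
Project OM (helper76), piece HX (helper26): the factorization of `(-2)^Ω(n)` on the odd numbers.
-/

set_option autoImplicit false

namespace Pool.Agent.K1H26.OM

open Finset ArithmeticFunction
open Pool.Agent.K1H76.OM

lemma ao_apply (n : ℕ) : ao n = if Odd n then (-2 : ℝ) ^ (cardFactors n) else 0 := rfl
lemma mo_apply (n : ℕ) : mo n = if Odd n then ((moebius n : ℤ) : ℝ) else 0 := rfl
lemma zo_apply (n : ℕ) : zo n = if Odd n then 1 else 0 := rfl

/-- products of functions which vanish at the even numbers -/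
lemma even_mul {F G : ArithmeticFunction ℝ} (hF : ∀ n, ¬ Odd n → F n = 0)
    (hG : ∀ n, ¬ Odd n → G n = 0) (n : ℕ) (hn : ¬ Odd n) : (F * G) n = 0 := by
  rw [ArithmeticFunction.mul_apply]
  refine Finset.sum_eq_zero fun x hx => ?_
  have hx' := (Nat.mem_divisorsAntidiagonal.1 hx).1
  by_cases h1 : Odd x.1
  · by_cases h2 : Odd x.2
    · exact absurd (hx' ▸ h1.mul h2) hn
    · rw [hG _ h2, mul_zero]
  · rw [hF _ h1, zero_mul]

lemma ao_even (n : ℕ) (hn : ¬ Odd n) : ao n = 0 := by rw [ao_apply, if_neg hn]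
lemma mo_even (n : ℕ) (hn : ¬ Odd n) : mo n = 0 := by rw [mo_apply, if_neg hn]
lemma zo_even (n : ℕ) (hn : ¬ Odd n) : zo n = 0 := by rw [zo_apply, if_neg hn]

lemma mo_mul_zo : mo * zo = 1 := by
  ext n
  by_cases hn : Odd n
  · have h : ((moebius : ArithmeticFunction ℝ) * (zeta : ArithmeticFunction ℝ)) n =
        (1 : ArithmeticFunction ℝ) n := by rw [coe_moebius_mul_coe_zeta]
    rw [← h, ArithmeticFunction.mul_apply, ArithmeticFunction.mul_apply]
    refine Finset.sum_congr rfl fun x hx => ?_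
    have hx' := (Nat.mem_divisorsAntidiagonal.1 hx)
    have h0 : Odd (x.1 * x.2) := by rw [hx'.1]; exact hn
    have h1 : Odd x.1 := (Nat.odd_mul.1 h0).1
    have h2 : Odd x.2 := (Nat.odd_mul.1 h0).2
    have h3 : x.2 ≠ 0 := by
      rintro h
      rw [h] at h2
      simp at h2
    rw [mo_apply, zo_apply, if_pos h1, if_pos h2]
    simp [h3]
  · rw [even_mul mo_even zo_even n hn, ArithmeticFunction.one_apply_ne]
    rintro rfl
    exact hn odd_one

lemma ao_mult : ao.IsMultiplicative := by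
  refine ⟨by simp [ao_apply], ?_⟩
  intro m n _
  rw [ao_apply, ao_apply, ao_apply]
  by_cases hm : Odd m
  · by_cases hn : Odd n
    · have h1 : m ≠ 0 := by rintro rfl; simp at hm
      have h2 : n ≠ 0 := by rintro rfl; simp at hn
      rw [if_pos (hm.mul hn), if_pos hm, if_pos hn, cardFactors_mul h1 h2, pow_add]
    · rw [if_neg hn, mul_zero, if_neg]
      intro h
      exact hn (Nat.odd_mul.1 h).2
  · rw [if_neg hm, zero_mul, if_neg]
    intro h
    exact hm (Nat.odd_mul.1 h).1

lemma zo_mult : zo.IsMultiplicative := by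
  refine ⟨by simp [zo_apply], ?_⟩
  intro m n _
  rw [zo_apply, zo_apply, zo_apply]
  by_cases hm : Odd m
  · by_cases hn : Odd n
    · rw [if_pos (hm.mul hn), if_pos hm, if_pos hn, mul_one]
    · rw [if_neg hn, mul_zero, if_neg]
      intro h
      exact hn (Nat.odd_mul.1 h).2
  · rw [if_neg hm, zero_mul, if_neg]
    intro h
    exact hm (Nat.odd_mul.1 h).1

/-- the value of a convolution at a prime power -/
lemma mul_prime_pow (F G : ArithmeticFunction ℝ) {p : ℕ} (hp : p.Prime) (k : ℕ) :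
    (F * G) (p ^ k) = ∑ i ∈ range (k + 1), F (p ^ i) * G (p ^ (k - i)) := by
  rw [ArithmeticFunction.mul_apply, Nat.sum_divisorsAntidiagonal (fun a b => F a * G b),
    Nat.divisors_prime_pow hp, Finset.sum_map]
  refine Finset.sum_congr rfl fun i hi => ?_
  have hi' := Finset.mem_range.1 hi
  simp only [Function.Embedding.coeFn_mk]
  rw [Nat.pow_div (by omega) hp.pos]

lemma ao_pp {p : ℕ} (hp : p.Prime) (h2 : p ≠ 2) (i : ℕ) : ao (p ^ i) = (-2) ^ i := by
  have ho : Odd p := hp.odd_of_ne_two h2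
  rw [ao_apply, if_pos ho.pow, cardFactors_apply_prime_pow hp]

lemma zo_pp {p : ℕ} (hp : p.Prime) (h2 : p ≠ 2) (i : ℕ) : zo (p ^ i) = 1 := by
  have ho : Odd p := hp.odd_of_ne_two h2
  rw [zo_apply, if_pos ho.pow]

lemma az_pp {p : ℕ} (hp : p.Prime) (h2 : p ≠ 2) (k : ℕ) :
    (ao * zo) (p ^ k) = (1 - (-2) ^ (k + 1)) / 3 := by
  rw [mul_prime_pow _ _ hp]
  simp only [ao_pp hp h2, zo_pp hp h2, mul_one]
  induction k with
  | zero => norm_num
  | succ k ih =>
    rw [Finset.sum_range_succ, ih]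
    ring

theorem t_HX : S_HX := by
  refine ⟨?_, ?_, ?_, ?_⟩
  · unfold Pool.Agent.K1H76.OM.ho
    have h := mo_mul_zo
    calc ao = (mo * zo) * (mo * zo) * ao := by rw [h, one_mul, one_mul]
      _ = mo * mo * (ao * zo * zo) := by ring
  · exact (ao_mult.mul zo_mult).mul zo_mult
  · intro k hk
    refine even_mul (even_mul ao_even zo_even) zo_even _ ?_
    rw [Nat.not_odd_iff_even]
    exact (even_two).pow_of_ne_zero (by omega)
  · intro p k hp h2
    unfold Pool.Agent.K1H76.OM.ho
    rw [mul_prime_pow _ _ hp]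
    simp only [az_pp hp h2, zo_pp hp h2, mul_one]
    induction k with
    | zero => norm_num
    | succ k ih =>
      rw [Finset.sum_range_succ, ih]
      push_cast
      ring

end Pool.Agent.K1H26.OM
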